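import Pool.Agent.Helper96.VF.Goals

/-!
Project VF (MP_6829b3_nt), packet CARD.
-/

set_option autoImplicit false

namespace Pool.Agent.Helper50.VF

open Pool.Agent.Helper96.VF

theorem cc_bd (n m : ℕ) : 30 ≤ cc n m ∧ cc n m ≤ 36 := by
  unfold cc
  split_ifs <;> omega

theorem el_iff_e {n a b m : ℕ} (h : ¬ Ty n m) : El n a b m ↔
    ((Even a ∧ cc n m * n < 4 * (36 * m * (2 ^ a * 3 ^ b)) ∧
        36 * m * (2 ^ a * 3 ^ b) ≤ cc n m * n) ∨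
    (¬ Even a ∧ cc n m * n < 6 * (36 * m * (2 ^ a * 3 ^ b)) ∧
        2 * (36 * m * (2 ^ a * 3 ^ b)) ≤ cc n m * n)) := by
  unfold El
  have e1 : 144 * (2 ^ a * 3 ^ b * m) = 4 * (36 * m * (2 ^ a * 3 ^ b)) := by ring
  have e2 : 36 * (2 ^ a * 3 ^ b * m) = 36 * m * (2 ^ a * 3 ^ b) := by ring
  have e3 : 216 * (2 ^ a * 3 ^ b * m) = 6 * (36 * m * (2 ^ a * 3 ^ b)) := by ring
  have e4 : 72 * (2 ^ a * 3 ^ b * m) = 2 * (36 * m * (2 ^ a * 3 ^ b)) := by ring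
  rw [e1, e2, e3, e4]
  have h1 : (Even a ↔ ¬ Ty n m) ↔ Even a := by tauto
  rw [h1]

theorem el_iff_o {n a b m : ℕ} (h : Ty n m) : El n a b m ↔
    ((¬ Even a ∧ cc n m * n < 4 * (36 * m * (2 ^ a * 3 ^ b)) ∧
        36 * m * (2 ^ a * 3 ^ b) ≤ cc n m * n) ∨
    (Even a ∧ cc n m * n < 6 * (36 * m * (2 ^ a * 3 ^ b)) ∧
        2 * (36 * m * (2 ^ a * 3 ^ b)) ≤ cc n m * n)) := by
  unfold El
  have e1 : 144 * (2 ^ a * 3 ^ b * m) = 4 * (36 * m * (2 ^ a * 3 ^ b)) := by ring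
  have e2 : 36 * (2 ^ a * 3 ^ b * m) = 36 * m * (2 ^ a * 3 ^ b) := by ring
  have e3 : 216 * (2 ^ a * 3 ^ b * m) = 6 * (36 * m * (2 ^ a * 3 ^ b)) := by ring
  have e4 : 72 * (2 ^ a * 3 ^ b * m) = 2 * (36 * m * (2 ^ a * 3 ^ b)) := by ring
  rw [e1, e2, e3, e4]
  have h1 : (Even a ↔ ¬ Ty n m) ↔ ¬ Even a := by tauto
  have h2 : ¬ (Even a ↔ ¬ Ty n m) ↔ Even a := by tauto
  rw [h2, h1]

/-- `El` implies `x ≤ n`. -/
theorem el_le {n a b m : ℕ} (h : El n a b m) : 2 ^ a * 3 ^ b * m ≤ n := by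
  obtain ⟨h1, h2⟩ := cc_bd n m
  have h3 : cc n m * n ≤ 36 * n := Nat.mul_le_mul_right n h2
  rcases h with ⟨_, _, h5⟩ | ⟨_, _, h5⟩ <;> omega

theorem bds {n a b m : ℕ} (hm : 0 < m) (h : 2 ^ a * 3 ^ b * m ≤ n) : a < n + 1 ∧ b < n + 1 := by
  have h1 : a < 2 ^ a := Nat.lt_two_pow_self
  have h2 : b < 3 ^ b := Nat.lt_pow_self (by norm_num)
  have h3 : 1 ≤ 2 ^ a := Nat.one_le_two_pow
  have h4 : 1 ≤ 3 ^ b := Nat.one_le_pow _ _ (by norm_num)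
  have h5 : 2 ^ a ≤ 2 ^ a * 3 ^ b * m := by
    calc 2 ^ a = 2 ^ a * 1 * 1 := by ring
      _ ≤ 2 ^ a * 3 ^ b * m := Nat.mul_le_mul (Nat.mul_le_mul_left _ h4) hm
  have h6 : 3 ^ b ≤ 2 ^ a * 3 ^ b * m := by
    calc 3 ^ b = 1 * 3 ^ b * 1 := by ring
      _ ≤ 2 ^ a * 3 ^ b * m := Nat.mul_le_mul (Nat.mul_le_mul_right _ h3) hm
  omega

open Classical in
theorem mem_iff (hUNQ : UNQ) {n a b m : ℕ} (hm : 0 < m) (hc : Nat.Coprime m 6) :
    2 ^ a * 3 ^ b * m ∈ Aset n ↔ El n a b m := by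
  unfold Aset
  rw [Finset.mem_filter, Finset.mem_Icc]
  constructor
  · rintro ⟨-, a', b', m', hc', he, hEl⟩
    obtain ⟨rfl, rfl, rfl⟩ := hUNQ a b m a' b' m' hc hc' he
    exact hEl
  · intro h
    refine ⟨⟨?_, el_le h⟩, a, b, m, hc, rfl, h⟩
    have : 0 < 2 ^ a * 3 ^ b * m := by positivity
    omega

open Classical in
theorem gCARD (hCLS : CLS) (hUNQ : UNQ) (hCE : CE) (hCO : CO) : CARD := by
  intro n
  rw [hCLS n (Aset n) (Finset.filter_subset _ _)]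
  refine Finset.sum_congr rfl fun m hm => ?_
  obtain ⟨hm1, hc⟩ := Finset.mem_filter.1 hm
  obtain ⟨hm2, hm3⟩ := Finset.mem_Icc.1 hm1
  obtain ⟨h30, h36⟩ := cc_bd n m
  have hnN : n ≤ cc n m * n := Nat.le_mul_of_pos_left n (by omega)
  by_cases hT : Ty n m
  · rw [if_pos hT, ← hCO (cc n m * n) (36 * m) (by omega)]
    congr 1
    ext u
    unfold SO
    rw [Finset.mem_filter, Finset.mem_filter, Finset.mem_product, Finset.mem_product,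
      Finset.mem_range, Finset.mem_range, Finset.mem_range, Finset.mem_range,
      mem_iff hUNQ hm2 hc]
    constructor
    · rintro ⟨⟨h1, h2⟩, h3⟩
      exact ⟨⟨by omega, by omega⟩, (el_iff_o hT).1 h3⟩
    · rintro ⟨-, h3⟩
      have h4 := (el_iff_o hT).2 h3
      exact ⟨bds hm2 (el_le h4), h4⟩
  · rw [if_neg hT, ← hCE (cc n m * n) (36 * m) (by omega)]
    congr 1
    ext u
    unfold SE
    rw [Finset.mem_filter, Finset.mem_filter, Finset.mem_product, Finset.mem_product,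
      Finset.mem_range, Finset.mem_range, Finset.mem_range, Finset.mem_range,
      mem_iff hUNQ hm2 hc]
    constructor
    · rintro ⟨⟨h1, h2⟩, h3⟩
      exact ⟨⟨by omega, by omega⟩, (el_iff_e hT).1 h3⟩
    · rintro ⟨-, h3⟩
      have h4 := (el_iff_e hT).2 h3
      exact ⟨bds hm2 (el_le h4), h4⟩

end Pool.Agent.Helper50.VF
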