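import Pool.Agent.Helper96.VF.GoalsL

/-!
# Project VF, packet SERC: the series form of the constants
-/

set_option autoImplicit false

open Filter Topology

namespace Pool.Agent.Helper50.VF

open Pool.Agent.Helper96.VF

theorem mm1_eq (x : ℕ × ℕ) :
    mm 2 4 2 3 x = mu (2 * 4 ^ x.1) (4 * 4 ^ x.1) (2 * 3 ^ x.2) (3 * 3 ^ x.2) := by
  unfold mm
  norm_num

theorem mm2_eq (x : ℕ × ℕ) :
    mm 16 20 10 12 x = mu (16 * 4 ^ x.1) (20 * 4 ^ x.1) (10 * 3 ^ x.2) (12 * 3 ^ x.2) := by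
  unfold mm
  norm_num

theorem kk_lt (b : ℕ) : (3 : ℝ) ^ b < 2 * 2 ^ kk b := by
  have h : 3 ^ b < 2 ^ (kk b + 1) := Nat.lt_pow_succ_log_self (by norm_num) _
  have h2 : ((3 ^ b : ℕ) : ℝ) < ((2 ^ (kk b + 1) : ℕ) : ℝ) := by exact_mod_cast h
  push_cast at h2
  rw [pow_succ] at h2
  linarith

theorem inv_kk (b : ℕ) : (1 : ℝ) / 2 ^ kk b ≤ 2 * (1 / 3 ^ b) := by
  have h := kk_lt b
  have h3 : (0 : ℝ) < 3 ^ b := by positivity
  have h2 : (0 : ℝ) < 2 ^ kk b := by positivity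
  rw [div_le_iff₀ h2]
  have : 2 * (1 / (3 : ℝ) ^ b) * 2 ^ kk b = (2 * 2 ^ kk b) / 3 ^ b := by ring
  rw [this, le_div_iff₀ h3]
  linarith

theorem sumG : Summable (fun b : ℕ => (1 : ℝ) / 3 ^ b) := by
  have := summable_geometric_of_lt_one (r := (1 / 3 : ℝ)) (by norm_num) (by norm_num)
  refine this.congr ?_
  intro b
  rw [one_div_pow]

theorem tsumG : (∑' b : ℕ, (1 : ℝ) / 3 ^ b) = 3 / 2 := by
  have h := tsum_geometric_of_lt_one (r := (1 / 3 : ℝ)) (by norm_num) (by norm_num)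
  have h2 : (∑' b : ℕ, (1 : ℝ) / 3 ^ b) = ∑' b : ℕ, (1 / 3 : ℝ) ^ b := by
    refine tsum_congr ?_
    intro b
    rw [one_div_pow]
  rw [h2, h]
  norm_num

theorem tsumG1 : (∑' b : ℕ, (1 : ℝ) / 3 ^ (b + 1)) = 1 / 2 := by
  have h := sumG.sum_add_tsum_nat_add 1
  rw [tsumG] at h
  simp only [Finset.sum_range_one, pow_zero] at h
  linarith

theorem split1 (k : ℕ) : (1 : ℝ) / (3 * 2 ^ k) = (1 / 3) * (1 / 2 ^ k) := by
  rw [one_div_mul_one_div]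

theorem split2 (k : ℕ) : (1 : ℝ) / (6 * 2 ^ k) = (1 / 6) * (1 / 2 ^ k) := by
  rw [one_div_mul_one_div]

theorem split3 (k : ℕ) : (1 : ℝ) / (2 * 3 ^ k) = (1 / 2) * (1 / 3 ^ k) := by
  rw [one_div_mul_one_div]

theorem split4 (k : ℕ) : (2 : ℝ) / 2 ^ k = 2 * (1 / 2 ^ k) := by
  rw [mul_one_div]

theorem split5 (k : ℕ) : (3 : ℝ) / 3 ^ k = 3 * (1 / 3 ^ k) := by
  rw [mul_one_div]

theorem R1_abs (b : ℕ) : |R1 b| ≤ 2 * (1 / 3 ^ b) := by
  have h := inv_kk b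
  have h0 : (0 : ℝ) < 1 / 3 ^ b := by positivity
  have h1 : (0 : ℝ) < 1 / 2 ^ kk b := by positivity
  unfold R1
  rw [split1]
  split_ifs
  · rw [abs_le]; constructor <;> linarith
  · rw [abs_le]; constructor <;> linarith

theorem R2_abs (b : ℕ) : |R2 b| ≤ 2 * (1 / 3 ^ b) := by
  have h := inv_kk b
  have h0 : (0 : ℝ) < 1 / 3 ^ b := by positivity
  have h1 : (0 : ℝ) < 1 / 2 ^ kk b := by positivity
  unfold R2
  rw [split2, split3]
  split_ifs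
  · rw [abs_le]; constructor <;> linarith
  · rw [abs_le]; constructor <;> linarith

theorem sumR1 : Summable R1 :=
  Summable.of_norm_bounded (sumG.mul_left 2) (fun b => by
    rw [Real.norm_eq_abs]; exact R1_abs b)

theorem sumR2 : Summable R2 :=
  Summable.of_norm_bounded (sumG.mul_left 2) (fun b => by
    rw [Real.norm_eq_abs]; exact R2_abs b)

/-- the term of `V`. -/
noncomputable def vt (b : ℕ) : ℝ := (-1 : ℝ) ^ kk b * (2 / 2 ^ kk b - 3 / 3 ^ b)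

theorem R21 (b : ℕ) : R2 b - R1 b = -(1 / 4) * vt b - (1 / 4) * (1 / 3 ^ b) := by
  unfold R2 R1 vt
  rw [split1, split2, split3, split4, split5]
  split_ifs with h
  · have he : Even (kk b) := Nat.even_iff.mpr h
    rw [he.neg_one_pow]
    ring
  · have ho : Odd (kk b) := Nat.odd_iff.mpr (by omega)
    rw [ho.neg_one_pow]
    ring

theorem sumV : Summable vt := by
  have h : Summable (fun b => (-4) * (R2 b - R1 b) - (1 : ℝ) / 3 ^ b) :=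
    ((sumR2.sub sumR1).mul_left (-4)).sub sumG
  refine h.congr ?_
  intro b
  rw [R21]
  ring

theorem sumV1 : Summable (fun b : ℕ => vt (b + 1)) := (summable_nat_add_iff 1).mpr sumV

theorem kk0 : kk 0 = 0 := by
  unfold kk
  simp

theorem R20 : R2 0 = 1 / 3 := by
  unfold R2
  rw [kk0]
  norm_num

theorem wb0 : wb 0 = 0 := by
  unfold wb
  rw [kk0]
  norm_num

theorem first : (∑' b : ℕ, (R2 b - R1 (b + 1))) = 5 / 24 - VV / 4 := by
  have s1 : Summable (fun b : ℕ => R1 (b + 1)) := (summable_nat_add_iff 1).mpr sumR1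
  have s2 : Summable (fun b : ℕ => R2 (b + 1)) := (summable_nat_add_iff 1).mpr sumR2
  have sg : Summable (fun b : ℕ => (1 : ℝ) / 3 ^ (b + 1)) := (summable_nat_add_iff 1).mpr sumG
  have e1 : (∑' b : ℕ, (R2 b - R1 (b + 1))) = (∑' b : ℕ, R2 b) - ∑' b : ℕ, R1 (b + 1) :=
    Summable.tsum_sub sumR2 s1
  have e2 : (∑' b : ℕ, R2 b) = R2 0 + ∑' b : ℕ, R2 (b + 1) := sumR2.tsum_eq_zero_add
  have e3 : (∑' b : ℕ, (R2 (b + 1) - R1 (b + 1))) =
      (∑' b : ℕ, R2 (b + 1)) - ∑' b : ℕ, R1 (b + 1) := Summable.tsum_sub s2 s1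
  have e4 : (∑' b : ℕ, (R2 (b + 1) - R1 (b + 1))) =
      ∑' b : ℕ, (-(1 / 4) * vt (b + 1) - (1 / 4) * ((1 : ℝ) / 3 ^ (b + 1))) :=
    tsum_congr (fun b => R21 (b + 1))
  have e5 : (∑' b : ℕ, (-(1 / 4) * vt (b + 1) - (1 / 4) * ((1 : ℝ) / 3 ^ (b + 1)))) =
      (∑' b : ℕ, -(1 / 4) * vt (b + 1)) - ∑' b : ℕ, (1 / 4) * ((1 : ℝ) / 3 ^ (b + 1)) :=
    Summable.tsum_sub (sumV1.mul_left _) (sg.mul_left _)
  have e6 : (∑' b : ℕ, -(1 / 4) * vt (b + 1)) = -(1 / 4) * ∑' b : ℕ, vt (b + 1) := tsum_mul_left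
  have e7 : (∑' b : ℕ, (1 / 4) * ((1 : ℝ) / 3 ^ (b + 1))) =
      (1 / 4) * ∑' b : ℕ, ((1 : ℝ) / 3 ^ (b + 1)) := tsum_mul_left
  have e8 : (∑' b : ℕ, vt (b + 1)) = VV := rfl
  rw [tsumG1] at e7
  rw [e8] at e6
  rw [R20] at e2
  linarith

theorem swapS (f : ℕ × ℕ → ℝ) (hf : Summable f) :
    (∑' x, f x) = (∑' b : ℕ, ∑' j : ℕ, f (j, b)) ∧ Summable (fun b : ℕ => ∑' j : ℕ, f (j, b)) := by
  have h : Summable (fun x : ℕ × ℕ => f (x.2, x.1)) := by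
    have := (Equiv.prodComm ℕ ℕ).summable_iff.mpr hf
    exact this
  have e : (∑' x : ℕ × ℕ, f (x.2, x.1)) = ∑' x, f x := (Equiv.prodComm ℕ ℕ).tsum_eq f
  refine ⟨?_, ?_⟩
  · rw [← e]
    exact h.tsum_prod
  · exact h.prod

theorem gSERC (hA : SERA) (hB : SERB) (hD : DBLA) : SERC := by
  have S1 : Summable (mm 2 4 2 3) := (hD 2 4 2 3 (by unfold Par; omega)).1
  have S2 : Summable (mm 16 20 10 12) := (hD 16 20 10 12 (by unfold Par; omega)).1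
  obtain ⟨T1, -⟩ := swapS _ S1
  obtain ⟨T2, U2⟩ := swapS _ S2
  have a1 : (∑' b : ℕ, ∑' j : ℕ, mm 2 4 2 3 (j, b)) = ∑' b : ℕ, (R2 b - R1 (b + 1)) :=
    tsum_congr hA
  have a2 : (∑' b : ℕ, ∑' j : ℕ, mm 16 20 10 12 (j, b)) = ∑' b : ℕ, wb b := tsum_congr hB
  have sw : Summable wb := U2.congr hB
  have sw1 : Summable (fun b : ℕ => wb (b + 1)) := (summable_nat_add_iff 1).mpr sw
  have a3 : (∑' b : ℕ, wb b) = wb 0 + ∑' b : ℕ, wb (b + 1) := sw.tsum_eq_zero_add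
  have b1 : (∑' x, mm 2 4 2 3 x) = 5 / 24 - VV / 4 := by rw [T1, a1, first]
  have b2 : (∑' x, mm 16 20 10 12 x) = WW := by
    rw [T2, a2, a3, wb0, zero_add]
    rfl
  have c1 : (∑' x : ℕ × ℕ, mu (2 * 4 ^ x.1) (4 * 4 ^ x.1) (2 * 3 ^ x.2) (3 * 3 ^ x.2)) =
      5 / 24 - VV / 4 := by
    rw [← b1]
    exact tsum_congr (fun x => (mm1_eq x).symm)
  have c2 : (∑' x : ℕ × ℕ, trm x) = 5 / 24 - VV / 4 - WW := by
    have h : (∑' x : ℕ × ℕ, trm x) = ∑' x, (mm 2 4 2 3 x - mm 16 20 10 12 x) := by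
      refine tsum_congr (fun x => ?_)
      rw [mm1_eq, mm2_eq]
      rfl
    rw [h, Summable.tsum_sub S1 S2, b1, b2]
  refine ⟨?_, ?_, ?_, sw1⟩
  · unfold lam
    rw [c2]
    ring
  · unfold lam5
    rw [c1]
    ring
  · exact sumV1

end Pool.Agent.Helper50.VF
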